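import Pool.Agent.H70.EI.Targets

/-!
Module GEO (MP_0f8dca_lc): the sum of the error bounds.
-/

set_option autoImplicit false

namespace Pool.Agent.H94.EI

open Finset Pool.Agent.H6.NB Pool.Agent.H70.EH Pool.Agent.H70.EI

/-- Finitely many different strings: the sum of `(1 / 4) ^ length` is at most `2`. -/
theorem GEO.strings (S : Finset (List Bool)) :
    ∑ s ∈ S, (1 / 4 : ℝ) ^ s.length ≤ 2 := by
  set L : ℕ := S.sup List.length with hL
  have hmaps : ∀ s ∈ S, s.length ∈ Finset.range (L + 1) := by
    intro s hs
    rw [Finset.mem_range, Nat.lt_succ_iff]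
    exact Finset.le_sup (f := List.length) hs
  rw [← Finset.sum_fiberwise_of_maps_to hmaps]
  have hf : ∀ l ∈ Finset.range (L + 1),
      ∑ s ∈ S.filter (fun s => s.length = l), (1 / 4 : ℝ) ^ s.length ≤ (1 / (2 : ℝ)) ^ l := by
    intro l _
    have e1 : ∑ s ∈ S.filter (fun s => s.length = l), (1 / 4 : ℝ) ^ s.length =
        ((S.filter (fun s => s.length = l)).card : ℝ) * (1 / 4) ^ l := by
      rw [← nsmul_eq_mul, ← Finset.sum_const]
      refine Finset.sum_congr rfl fun s hs => ?_
      rw [(Finset.mem_filter.1 hs).2]
    have e2 : (S.filter (fun s => s.length = l)).card ≤ 2 ^ l := by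
      have e3 : Fintype.card (List.Vector Bool l) = 2 ^ l := by
        rw [card_vector]
        simp
      rw [← e3, ← Fintype.card_coe]
      refine Fintype.card_le_of_injective
        (fun x : {s // s ∈ S.filter (fun s => s.length = l)} =>
          (⟨x.1, (Finset.mem_filter.1 x.2).2⟩ : List.Vector Bool l)) ?_
      intro x y h
      exact Subtype.ext (congrArg (fun v => v.1) h)
    rw [e1]
    calc ((S.filter (fun s => s.length = l)).card : ℝ) * (1 / 4) ^ l
        ≤ (2 : ℝ) ^ l * (1 / 4) ^ l := by
          refine mul_le_mul_of_nonneg_right ?_ (by positivity)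
          exact_mod_cast e2
      _ = (1 / 2 : ℝ) ^ l := by
          rw [← mul_pow]
          norm_num
  exact (Finset.sum_le_sum hf).trans (sum_geometric_two_le _)

theorem geo (h1 : T_HMX) : T_GEO := by
  intro V E
  let g : Ix → List Bool := fun i => match i with
    | .inl p => hm V p
    | .inr _ => []
  have key1 : ∀ i : Ix, (match i with
      | .inl p => (1 / 4 : ℝ) ^ (hm V p).length
      | .inr _ => 0) = if i.isLeft = true then (1 / 4 : ℝ) ^ (g i).length else 0 := by
    intro i
    rcases i with p | a
    · simp [g]
    · simp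
  refine (Finset.sum_congr rfl fun i _ => key1 i).trans_le ?_
  rw [← Finset.sum_filter]
  have hinj : Set.InjOn g (E.filter fun i => i.isLeft = true : Finset Ix) := by
    intro i hi j hj hij
    rw [Finset.mem_coe, Finset.mem_filter] at hi hj
    rcases i with p | a
    · rcases j with p' | a'
      · exact congrArg Sum.inl (h1.1 V p p' hij)
      · simp at hj
    · simp at hi
  have h2 := GEO.strings ((E.filter fun i => i.isLeft = true).image g)
  rw [Finset.sum_image hinj] at h2
  exact h2

end Pool.Agent.H94.EI
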