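import Pool.Agent.H70.EI.Targets

/-!
Module HMX (MP_0f8dca_lc): the instance strings.
-/

set_option autoImplicit false

namespace Pool.Agent.H94.EI

open Finset Pool.Agent.H6.NB Pool.Agent.H70.EH Pool.Agent.H70.EI

theorem HMX.len (h1 : Pool.Agent.H6.NB.T_COD) (V : ℕ → ATM) (p : ℕ × List Bool) :
    (hm V p).length = 2 * p.2.length + 2 * p.1 + 16 * scale (V p.1) p.1 p.2 ^ 3 + 2 := by
  unfold hm home
  rw [h1.2, List.length_replicate]

theorem HMX.sc (V : ℕ → ATM) (p : ℕ × List Bool) :
    p.2.length + p.1 + 20 ≤ scale (V p.1) p.1 p.2 := by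
  unfold scale
  omega

theorem hmx (h1 : Pool.Agent.H6.NB.T_COD) : T_HMX := by
  refine ⟨?_, ?_, ?_⟩
  · intro V p p' h
    unfold hm home at h
    obtain ⟨h3, h4, -⟩ := h1.1 _ _ _ _ _ _ h
    have h5 := congrArg List.length h4
    rw [List.length_replicate, List.length_replicate] at h5
    exact Prod.ext h5 h3
  · intro V p u v b
    have hl := HMX.len h1 V p
    have hs := HMX.sc V p
    cases hc : hm V p with
    | nil =>
      rw [hc, List.length_nil] at hl
      omega
    | cons a l =>
      exact ⟨(a :: dbl l) ++ false :: (dbl (u ++ v) ++ false :: List.replicate b.toNat true), rfl⟩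
  · intro V ρ p
    have hl := HMX.len h1 V p
    have hs := HMX.sc V p
    have hk : key V ρ (.inl p) = scale (V p.1) p.1 p.2 := rfl
    rw [hk, hl]
    generalize scale (V p.1) p.1 p.2 = k at hs
    refine ⟨by omega, by omega, ?_⟩
    have h3 : 16 * (k + 1) ^ 3 = 16 * k ^ 3 + 48 * k ^ 2 + 48 * k + 16 := by ring
    rw [h3]
    have h4 : 0 ≤ k ^ 2 := Nat.zero_le _
    omega

end Pool.Agent.H94.EI
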